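import Pool.Agent.MP_1246c0_nt.H25.SpecU
import Pool.Agent.MP_db5b97_nt.H72.Z

/-! The primes in the kernel of a family of characters. -/

namespace Pool.Agent.MP_1246c0_nt.H25

open NumberField Finset Filter Topology Pool.Agent.MP_db5b97_nt.H85 Pool.Agent.MP_db5b97_nt.H72
open Pool.Agent.MP_1246c0_nt.H12

namespace CHS

variable {K : Type} [Field K] [NumberField K]

theorem ind_mem (p : Prop) : 0 ≤ ind p ∧ ind p ≤ 1 := by
  unfold ind
  split_ifs <;> norm_num

theorem norm_nc (I : Ideal (𝓞 K)) {s : ℂ} (hs : 1 < s.re) : ‖nc I s‖ = nz I s.re := by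
  rw [nc, Complex.norm_natCast_cpow_of_re_ne_zero _ (by rw [Complex.neg_re]; linarith), nz,
    Complex.neg_re]

theorem nc_real (I : Ideal (𝓞 K)) (x : ℝ) : nc I x = nz I x := by
  rw [nc, nz, Complex.ofReal_cpow (by positivity)]
  simp

/-- the real term -/
noncomputable def tm (x : ℝ) (q : Sp K × ℕ) : ℝ := nz q.1.asIdeal x ^ (q.2 + 1) / (q.2 + 1)

/-- the complex term -/
noncomputable def ct (s : ℂ) (q : Sp K × ℕ) : ℂ := nc q.1.asIdeal s ^ (q.2 + 1) / (q.2 + 1)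

theorem tm_nonneg (x : ℝ) (q : Sp K × ℕ) : 0 ≤ tm x q :=
  div_nonneg (pow_nonneg (nz_nonneg _ _) _) (by positivity)

theorem tm_le (x : ℝ) (q : Sp K × ℕ) : tm x q ≤ nz q.1.asIdeal x ^ (q.2 + 1) :=
  div_le_self (pow_nonneg (nz_nonneg _ _) _) (by linarith [Nat.cast_nonneg (α := ℝ) q.2])

theorem ct_real (x : ℝ) (q : Sp K × ℕ) : ct x q = tm x q := by
  rw [ct, tm, nc_real]
  push_cast
  rfl

theorem norm_ct {s : ℂ} {x : ℝ} (hx : 1 < x) (hs : x ≤ s.re) (q : Sp K × ℕ) :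
    ‖ct s q‖ ≤ tm x q := by
  have e : ‖((q.2 : ℂ) + 1)‖ = q.2 + 1 := by exact_mod_cast Complex.norm_natCast (q.2 + 1)
  rw [ct, tm, norm_div, norm_pow, norm_nc _ (hx.trans_le hs), e]
  refine div_le_div_of_nonneg_right (pow_le_pow_left₀ (nz_nonneg _ _) ?_ _) (by positivity)
  exact Real.rpow_le_rpow_of_exponent_le (by linarith [two_le_norm q.1]) (by linarith)

theorem eul (hE : SEUX) (ω : Ideal (𝓞 K) → ℂ) (h1 : ω ⊤ = 1) (hm : ∀ I J, ω (I * J) = ω I * ω J)
    (hn : ∀ I, ‖ω I‖ ≤ 1) {s : ℂ} (hs : 1 < s.re) :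
    (Summable fun q : Sp K × ℕ => ‖ω q.1.asIdeal * nc q.1.asIdeal s‖ ^ (q.2 + 1)) ∧
      ∑' I, ω I * nc I s ≠ 0 ∧ Real.log ‖∑' I, ω I * nc I s‖ =
        (∑' q : Sp K × ℕ, ω (q.1.asIdeal ^ (q.2 + 1)) * ct s q).re := by
  have hb : ∀ I, ‖ω I * nc I s‖ ≤ nz I s.re := fun I => by
    rw [norm_mul, norm_nc _ hs]
    exact mul_le_of_le_one_left (nz_nonneg _ _) (hn I)
  have hp : ∀ (I : Ideal (𝓞 K)) (m : ℕ), ω (I ^ m) = ω I ^ m := fun I m => by
    induction m with
    | zero => simpa using h1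
    | succ m ih => rw [pow_succ, hm, ih, pow_succ]
  obtain ⟨a, b, c⟩ := hE K (fun I => ω I * nc I s) (by simp [h1, nc])
    (norm_le_zero_iff.1 ((hb ⊥).trans (nz_bot hs).le))
    (fun I J => by simp only [hm, nc, map_mul, Nat.cast_mul, Complex.natCast_mul_natCast_cpow]; ring)
    (Summable.of_nonneg_of_le (fun _ => norm_nonneg _) hb (zeta_sum hs).1)
    fun v => (hb _).trans (nz_le_half v hs)
  refine ⟨a, b, c.trans ?_⟩
  simp only [hp, ct, mul_pow, mul_div_assoc]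

theorem tm_sum (hE : SEUX) {x : ℝ} (hx : 1 < x) : Summable (tm (K := K) x) ∧
    ∀ y, ∑' I : Ideal (𝓞 K), nz I x ≤ y → ∑' q : Sp K × ℕ, tm x q ≤ Real.log y := by
  obtain ⟨a, -, c⟩ := eul (K := K) hE (fun _ => 1) rfl (by simp) (by simp) (s := x) hx
  simp only [one_mul, nc_real, ct_real, ← Complex.ofReal_tsum, Complex.ofReal_re, Complex.norm_real,
    Real.norm_eq_abs, Real.log_abs, abs_of_nonneg (nz_nonneg _ _)] at a c
  refine ⟨Summable.of_nonneg_of_le (tm_nonneg x) (tm_le x) a, fun y hy => ?_⟩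
  rw [← c]
  exact Real.log_le_log ((zeta_sum hx).1.tsum_pos (fun _ => nz_nonneg _ _) ⊤
    (by rw [nz_top]; exact one_pos)) hy

theorem re_le (hE : SEUX) {w : Sp K × ℕ → ℂ} {b : Sp K × ℕ → ℝ} {B : ℝ} (hb : ∀ q, ‖w q‖ ≤ b q)
    (hB : ∀ q, b q ≤ B) {s : ℂ} {x : ℝ} (hx : 1 < x) (hs : x ≤ s.re) :
    (Summable fun q => b q * tm x q) ∧ (Summable fun q => w q * ct s q) ∧
      |(∑' q, w q * ct s q).re| ≤ ∑' q, b q * tm x q := by
  have h0 : ∀ q, 0 ≤ b q := fun q => (norm_nonneg _).trans (hb q)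
  have h1 : Summable fun q => b q * tm x q :=
    Summable.of_nonneg_of_le (fun q => mul_nonneg (h0 q) (tm_nonneg x q))
      (fun q => mul_le_mul_of_nonneg_right (hB q) (tm_nonneg x q)) ((tm_sum hE hx).1.mul_left B)
  have h2 : ∀ q, ‖w q * ct s q‖ ≤ b q * tm x q := fun q => by
    rw [norm_mul]
    exact mul_le_mul (hb q) (norm_ct hx hs q) (norm_nonneg _) (h0 q)
  exact ⟨h1, h1.of_norm_bounded h2,
    (Complex.abs_re_le_norm _).trans (tsum_of_norm_bounded h1.hasSum h2)⟩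

theorem cnt (S : Finset (Sp K × ℕ)) (n : ℕ)
    (h : ∀ q ∈ S, Ideal.absNorm q.1.asIdeal ^ (q.2 + 1) = n) : S.card ≤ Module.finrank ℚ K := by
  classical
  rcases S.eq_empty_or_nonempty with rfl | ⟨q0, hq0⟩
  · simp
  have key : ∀ q ∈ S, n.minFac.Prime ∧ ((n.minFac : ℕ) : 𝓞 K) ∈ q.1.asIdeal := fun q hq => by
    obtain ⟨p, m, hm, hp, hpp, e⟩ := Ideal.exists_prime_and_absNorm_eq_pow q.1.asIdeal
    have : n.minFac = p := by rw [← h q hq, e, ← pow_mul, hpp.pow_minFac (by positivity)]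
    rw [this]
    exact ⟨hpp, hp⟩
  have hp : (Ideal.span {((n.minFac : ℕ) : ℤ)}).IsMaximal :=
    PrincipalIdealRing.isMaximal_of_irreducible
      (Nat.prime_iff_prime_int.1 (key q0 hq0).1).irreducible
  have h0 : Ideal.span {((n.minFac : ℕ) : ℤ)} ≠ ⊥ := by simp [(key q0 hq0).1.ne_zero]
  refine le_trans (card_le_card_of_injOn (fun q => q.1.asIdeal) (fun q hq => ?_)
    fun q hq q' hq' e => ?_) (Ideal.card_primesOverFinset_le_finrank (𝓞 K) ℚ K h0)
  · rw [mem_coe, IsDedekindDomain.mem_primesOverFinset_iff h0]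
    refine ⟨q.1.isPrime, ⟨hp.eq_of_le (Ideal.comap_ne_top _ q.1.isPrime.ne_top) ?_⟩⟩
    rw [Ideal.span_singleton_le_iff_mem, Ideal.mem_comap]
    simpa using (key q hq).2
  · have e1 : q.1 = q'.1 := asIdeal_inj e
    have e2 := (h q hq).trans (h q' hq').symm
    rw [← e1] at e2
    have e3 := Nat.pow_right_injective (by exact_mod_cast two_le_norm q.1) e2
    exact Prod.ext e1 (by omega)

theorem U_le (ker : Ideal (𝓞 K) → Prop) (k : ℕ) (md : ∀ I, ker I → Ideal.absNorm I % 2 ^ k = 1)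
    {x : ℝ} (hx : 1 < x) : ∑' q : Sp K × ℕ, ind (ker (q.1.asIdeal ^ (q.2 + 1))) * tm x q ≤
      Module.finrank ℚ K / 2 ^ k * ∑' n : ℕ, 1 / (n : ℝ) ^ x := by
  classical
  refine Real.tsum_le_of_sum_le (fun q => mul_nonneg (ind_mem _).1 (tm_nonneg x q)) fun S => ?_
  set S' := S.filter fun q => ker (q.1.asIdeal ^ (q.2 + 1)) with hS'
  let j : Sp K × ℕ → ℕ := fun q => Ideal.absNorm q.1.asIdeal ^ (q.2 + 1) / 2 ^ k
  let g : ℕ → ℝ := fun n => 1 / 2 ^ k * (1 / (n : ℝ) ^ x)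
  have hj : ∀ q ∈ S', Ideal.absNorm q.1.asIdeal ^ (q.2 + 1) = 2 ^ k * j q + 1 := fun q hq => by
    have := md _ (mem_filter.1 hq).2
    rw [map_pow] at this
    have e := Nat.div_add_mod (Ideal.absNorm q.1.asIdeal ^ (q.2 + 1)) (2 ^ k)
    rw [this] at e
    exact e.symm
  have h1 : ∀ q ∈ S', tm x q ≤ g (j q) := fun q hq => by
    have h2 : 2 ≤ Ideal.absNorm q.1.asIdeal := by exact_mod_cast two_le_norm q.1
    have h3 : 0 < j q := by
      have := (Nat.le_self_pow (Nat.succ_ne_zero q.2) _).trans' h2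
      rw [hj q hq] at this
      exact Nat.pos_of_ne_zero fun e => by simp [e] at this
    have h4 : (0 : ℝ) < j q := by exact_mod_cast h3
    have h5 : (1 : ℝ) ≤ 2 ^ k := one_le_pow₀ one_le_two
    refine (tm_le x q).trans ?_
    rw [nz, Real.rpow_pow_comm (by positivity), ← Nat.cast_pow, hj q hq,
      Real.rpow_neg (by positivity), ← one_div]
    simp only [g]
    rw [div_mul_div_comm, one_mul]
    refine one_div_le_one_div_of_le (by positivity) ?_
    calc (2 : ℝ) ^ k * (j q : ℝ) ^ x ≤ (2 ^ k) ^ x * (j q : ℝ) ^ x :=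
          mul_le_mul_of_nonneg_right (Real.self_le_rpow_of_one_le h5 hx.le) (by positivity)
      _ = (2 ^ k * (j q : ℝ)) ^ x := (Real.mul_rpow (by positivity) h4.le).symm
      _ ≤ _ := Real.rpow_le_rpow (by positivity) (by push_cast; linarith) (by linarith)
  calc ∑ q ∈ S, ind (ker (q.1.asIdeal ^ (q.2 + 1))) * tm x q = ∑ q ∈ S', tm x q := by
        rw [hS', sum_filter]
        exact sum_congr rfl fun q _ => by unfold ind; split_ifs <;> simp
    _ ≤ ∑ q ∈ S', g (j q) := sum_le_sum h1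
    _ ≤ ∑ n ∈ S'.image j, (Module.finrank ℚ K : ℝ) / 2 ^ k * (1 / (n : ℝ) ^ x) := by
        rw [sum_comp g j]
        refine sum_le_sum fun n _ => ?_
        have := cnt (S'.filter fun q => j q = n) (2 ^ k * n + 1) fun q hq => by
          rw [hj q (mem_filter.1 hq).1, (mem_filter.1 hq).2]
        rw [nsmul_eq_mul, div_eq_mul_one_div, mul_assoc]
        exact mul_le_mul_of_nonneg_right (by exact_mod_cast this) (by positivity)
    _ ≤ _ := by
        rw [← mul_sum]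
        exact mul_le_mul_of_nonneg_left ((Real.summable_one_div_nat_rpow.2 hx).sum_le_tsum _
          fun _ _ => by positivity) (by positivity)

theorem core (hE : SEUX) (hT : STRC) {k : ℕ} {A Z σ : ℝ} {C : Type} [Fintype C]
    {ω : C → Ideal (𝓞 K) → ℂ} {ker : Ideal (𝓞 K) → Prop} {Tv : Finset C} (hC : Cf k A ω ker Tv)
    (hk : 2 ≤ k) (hσ : 0 < σ) (hσk : σ ≤ 1 / k ^ 2) (hZ : 1 ≤ Z)
    (hz : ∀ x : ℝ, 1 < x → x ≤ 1 + 1 / k ^ 2 → (x - 1) * ∑' I : Ideal (𝓞 K), nz I x ≤ Z ∧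
      (x - 1) * ∑' n : ℕ, 1 / (n : ℝ) ^ x ≤ 2) :
    Fintype.card C * ∑' v : Sp K, ind (ker v.asIdeal) * nz v.asIdeal (1 + σ) ≤
      Tv.card * Real.log (1 / σ) + ((2 * Module.finrank ℚ K + 2 * |A| * Z) * (k ^ 2 / 2 ^ k) +
        2 * |A| / Real.log (1 + 1 / (4 * Module.finrank ℚ K)) * (1 / k)) * Fintype.card C := by
  classical
  have hN : (1 : ℝ) ≤ Module.finrank ℚ K := by exact_mod_cast Module.finrank_pos
  have hU := fun x hx => U_le ker k hC.md (x := x) hx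
  have hol := hC.hol
  unfold Hol at hol
  generalize (Module.finrank ℚ K : ℝ) = N at *
  choose! G hG1 hG2 hG3 using hol
  have hk' : (2 : ℝ) ≤ k := by exact_mod_cast hk
  have hκ : (0 : ℝ) < 1 / k ^ 2 := by positivity
  have hκ' : (1 : ℝ) / k ^ 2 ≤ 1 / 4 := one_div_le_one_div_of_le (by norm_num) (by nlinarith)
  set h : ℝ := (Fintype.card C : ℝ) with hh
  have h0 : 0 ≤ h := Nat.cast_nonneg _
  have t0 : (0 : ℝ) ≤ Tv.card := Nat.cast_nonneg _
  have ht : (Tv.card : ℝ) ≤ |A| * h / 2 ^ k := by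
    rw [le_div_iff₀ (by positivity)]
    exact hC.few.trans (mul_le_mul_of_nonneg_right (le_abs_self A) h0)
  let l : C → ℂ → ℝ := fun c s => Real.log ‖∑' I, ω c I * nc I s‖
  have hL := fun c (s : ℂ) (hs : 1 < s.re) => (eul hE (ω c) (hC.one c) (hC.mul c) (hC.le c) hs).2
  have hR := fun c (s : ℂ) (x : ℝ) (hx : 1 < x) (hs : x ≤ s.re) =>
    (re_le hE (w := fun q : Sp K × ℕ => ω c (q.1.asIdeal ^ (q.2 + 1))) (b := fun _ => 1)
      (fun _ => hC.le c _) (fun _ => le_rfl) hx hs).2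
  have hone : ∀ c (s : ℂ) (x : ℝ), 1 < x → x ≤ 1 + 1 / k ^ 2 → x ≤ s.re →
      |l c s| ≤ Real.log (Z / (x - 1)) := fun c s x hx hx' hs => by
    have := (hR c s x hx hs).2
    simp only [one_mul] at this
    rw [← (hL c s (hx.trans_le hs)).2] at this
    refine this.trans ((tm_sum hE hx).2 _ ?_)
    rw [le_div_iff₀' (by linarith)]
    exact (hz x hx hx').1
  have hsum : ∀ s : ℂ, 1 < s.re → ∑ c, l c s =
      h * (∑' q : Sp K × ℕ, (ind (ker (q.1.asIdeal ^ (q.2 + 1))) : ℂ) * ct s q).re := fun s hs => by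
    rw [sum_congr rfl fun c _ => (hL c s hs).2, ← Complex.re_sum,
      ← Summable.tsum_finsetSum fun c _ => (hR c s _ hs le_rfl).1, ← Complex.re_ofReal_mul,
      ← tsum_mul_left]
    refine congrArg _ (tsum_congr fun q => ?_)
    rw [← sum_mul, hC.orth _ (pow_ne_zero _ q.1.ne_bot), Complex.ofReal_mul, mul_assoc]
  have hI := fun (s : ℂ) (x : ℝ) (hx : 1 < x) (hs : x ≤ s.re) =>
    re_le hE (w := fun q : Sp K × ℕ => (ind (ker (q.1.asIdeal ^ (q.2 + 1))) : ℂ))
      (b := fun q => ind (ker (q.1.asIdeal ^ (q.2 + 1))))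
      (fun _ => by rw [Complex.norm_real, Real.norm_of_nonneg (ind_mem _).1])
      (fun _ => (ind_mem _).2) hx hs
  have hre : ∀ (z : ℂ) (r : ℝ), z ∈ Metric.sphere (2 : ℂ) r → 2 - r ≤ z.re := fun z r hz => by
    have := Complex.abs_re_le_norm (z - 2)
    rw [mem_sphere_iff_norm.1 hz, Complex.sub_re, abs_le] at this
    norm_num at this
    linarith [this.1]
  have hP : ∀ (z : ℂ) (r : ℝ), r < 1 → z ∈ Metric.sphere (2 : ℂ) r →
      ‖∏ c ∈ Tvᶜ, G c z‖ = Real.exp (∑ c ∈ Tvᶜ, l c z) := fun z r hr hz => by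
    rw [norm_prod, Real.exp_sum]
    refine prod_congr rfl fun c hc => ?_
    rw [hG3 c (mem_compl.1 hc) z (Metric.sphere_subset_ball hr hz),
      Real.exp_log (norm_pos_iff.2 (hL c z (by linarith [hre z r hz])).1)]
  have hZk : Z ≤ Z * k ^ 2 := le_mul_of_one_le_right (by linarith) (by nlinarith)
  set a := h * (N / 2 ^ k * (2 * k ^ 2)) + Tv.card * (Z * k ^ 2) with ha
  have a0 : 0 ≤ a := by positivity
  have e4 : 1 / (4 * N) < 1 / (2 * N) := one_div_lt_one_div_of_lt (by positivity) (by linarith)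
  have e5 : 0 < 1 / (4 * N) := by positivity
  have hz0 : ((1 + σ : ℝ) : ℂ) ∈ Metric.sphere (2 : ℂ) (1 - σ) := by
    rw [mem_sphere_iff_norm, show ((1 + σ : ℝ) : ℂ) - 2 = ((σ - 1 : ℝ) : ℂ) by push_cast; ring,
      Complex.norm_real, Real.norm_of_nonpos (by linarith)]
    ring
  have key := hT (fun z => ∏ c ∈ Tvᶜ, G c z) 2 (1 - 1 / k ^ 2) (1 - σ) (1 + 1 / (4 * N))
    (1 + 1 / (2 * N)) (Real.exp a) (Real.exp (|A| * k * h)) (by linarith) (by linarith)
    (by linarith) (by linarith) (by linarith)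
    (DifferentiableOn.fun_finsetProd fun c hc => hG1 c (mem_compl.1 hc)) (fun z hz' => ?_)
    (fun z hz' => ?_) _ hz0
  · rw [hP _ _ (by linarith) hz0, ← Real.exp_mul, ← Real.exp_mul, ← Real.exp_add,
      Real.exp_le_exp] at key
    have l3 : 0 < Real.log (1 + 1 / (4 * N)) := Real.log_pos (by linarith)
    have r1 : (0 : ℝ) < 1 - 1 / k ^ 2 := by linarith
    have l4 : Real.log (1 + 1 / (4 * N)) ≤ Real.log ((1 + 1 / (4 * N)) / (1 - 1 / k ^ 2)) :=
      Real.log_le_log (by linarith) (le_div_self (by linarith) r1 (by linarith))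
    have l1 : 0 ≤ Real.log ((1 - σ) / (1 - 1 / k ^ 2)) :=
      Real.log_nonneg ((one_le_div r1).2 (by linarith))
    have l2 : Real.log ((1 - σ) / (1 - 1 / k ^ 2)) ≤ 2 * (1 / k ^ 2) := by
      refine (Real.log_le_sub_one_of_pos (div_pos (by linarith) r1)).trans ?_
      rw [sub_le_iff_le_add, div_le_iff₀ r1]
      nlinarith
    have θ0 := div_nonneg l1 (l3.le.trans l4)
    have θ1 := div_le_div₀ (by positivity) l2 l3 l4
    generalize Real.log ((1 - σ) / (1 - 1 / k ^ 2)) /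
      Real.log ((1 + 1 / (4 * N)) / (1 - 1 / k ^ 2)) = θ at key θ0 θ1
    have b1 : |A| * k * h * θ ≤ 2 * |A| / Real.log (1 + 1 / (4 * N)) * (1 / k) * h :=
      (mul_le_mul_of_nonneg_left θ1 (by positivity)).trans (le_of_eq (by field_simp))
    have b2 : ∑ c ∈ Tv, l c (1 + σ : ℝ) ≤ Tv.card * Real.log (1 / σ) + Tv.card * (Z * k ^ 2) := by
      rw [← mul_add, ← nsmul_eq_mul]
      refine sum_le_card_nsmul _ _ _ fun c _ => (le_abs_self _).trans
        ((hone c _ (1 + σ) (by linarith) (by linarith) le_rfl).trans ?_)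
      rw [add_sub_cancel_left, div_eq_mul_one_div, Real.log_mul (by positivity) (by positivity)]
      linarith [Real.log_le_self (by linarith : 0 ≤ Z)]
    have b3 : ∑' v : Sp K, ind (ker v.asIdeal) * nz v.asIdeal (1 + σ) ≤
        ∑' q : Sp K × ℕ, ind (ker (q.1.asIdeal ^ (q.2 + 1))) * tm (1 + σ) q := by
      have := tsum_comp_le_tsum_of_inj (hI (1 + σ : ℝ) (1 + σ) (by linarith) le_rfl).1
        (fun q => mul_nonneg (ind_mem _).1 (tm_nonneg _ q)) (i := fun v : Sp K => (v, 0))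
        fun v w e => congrArg Prod.fst e
      simpa [Function.comp_def, tm] using this
    have b4 := hsum (1 + σ : ℝ) (by rw [Complex.ofReal_re]; linarith)
    simp only [ct_real, ← Complex.ofReal_mul, ← Complex.ofReal_tsum, Complex.ofReal_re] at b4
    rw [← sum_add_sum_compl Tv] at b4
    have b5 := mul_le_mul_of_nonneg_left b3 h0
    have b6 := mul_le_mul_of_nonneg_right ht (by positivity : 0 ≤ Z * k ^ 2)
    have b7 : (2 * N + 2 * |A| * Z) * (k ^ 2 / 2 ^ k) * h =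
        h * (N / 2 ^ k * (2 * k ^ 2)) + 2 * (|A| * h / 2 ^ k * (Z * k ^ 2)) := by ring
    have b8 := mul_nonneg a0 θ0
    rw [add_mul, b7]
    linarith
  · have hx : (1 : ℝ) < 1 + 1 / k ^ 2 := by linarith
    have hs : 1 + 1 / k ^ 2 ≤ z.re := by linarith [hre z _ hz']
    rw [hP z _ (by linarith) hz', Real.exp_le_exp]
    have c1 := hsum z (hx.trans_le hs)
    rw [← sum_add_sum_compl Tv] at c1
    have c2 : ∑' n : ℕ, 1 / (n : ℝ) ^ (1 + 1 / (k : ℝ) ^ 2 : ℝ) ≤ 2 * (k : ℝ) ^ 2 := by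
      have := (hz _ hx le_rfl).2
      rwa [add_sub_cancel_left, one_div_mul_eq_div, div_le_iff₀ (by positivity)] at this
    have c3 := mul_le_mul_of_nonneg_left ((le_abs_self _).trans ((hI z _ hx hs).2.2.trans
      ((hU _ hx).trans (mul_le_mul_of_nonneg_left c2 (by positivity))))) h0
    have c4 : ∑ c ∈ Tv, -l c z ≤ Tv.card * (Z * k ^ 2) := by
      rw [← nsmul_eq_mul]
      refine sum_le_card_nsmul _ _ _ fun c _ => (neg_le_abs _).trans
        ((hone c _ _ hx le_rfl hs).trans ?_)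
      rw [add_sub_cancel_left, div_div_eq_mul_div, div_one]
      exact Real.log_le_self (by positivity)
    rw [sum_neg_distrib] at c4
    linarith
  · rw [norm_prod]
    refine (prod_le_prod (g := fun _ => Real.exp (|A| * k)) (fun _ _ => norm_nonneg _)
      fun c hc => ?_).trans ?_
    · exact (hG2 c (mem_compl.1 hc) z (Metric.sphere_subset_ball (by linarith) hz')).trans
        (Real.exp_le_exp.2 (mul_le_mul_of_nonneg_right (le_abs_self A) (by positivity)))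
    · rw [prod_const, ← Real.exp_nat_mul, Real.exp_le_exp, mul_comm]
      exact mul_le_mul_of_nonneg_left (Nat.cast_le.2 (card_le_univ _)) (by positivity)

end CHS

theorem rowCHS : OfCHS := by
  intro hE hT K _ _ A ε hε
  obtain ⟨Z, hZ, hz⟩ := zeta_le (k := K)
  obtain ⟨u, hu, hU⟩ := mem_nhdsGT_iff_exists_Ioc_subset.1
    (hz.and (tendsto_sub_mul_tsum_nat_rpow.eventually_le_const one_lt_two))
  have l1 := tendsto_one_div_atTop_nhds_zero_nat (𝕜 := ℝ)
  have l2 := ((tendsto_pow_const_div_const_pow_of_one_lt 2 (one_lt_two (α := ℝ))).const_mul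
    (2 * Module.finrank ℚ K + 2 * |A| * (Z + 1))).add
      (l1.const_mul (2 * |A| / Real.log (1 + 1 / (4 * Module.finrank ℚ K))))
  obtain ⟨k0, hk0⟩ := eventually_atTop.1 ((eventually_ge_atTop 2).and
    ((l1.eventually_le_const (sub_pos.2 hu)).and (l2.eventually_le_const (by simpa using hε))))
  refine ⟨k0, fun k hk C _ ω ker Tv σ hC hσ hσk => ?_⟩
  obtain ⟨h1, h2, h3⟩ := hk0 k hk
  have h4 : (2 : ℝ) ≤ k := by exact_mod_cast h1
  have h5 : (1 : ℝ) / k ^ 2 ≤ 1 / k := one_div_le_one_div_of_le (by linarith) (by nlinarith)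
  refine (CHS.core hE hT hC h1 hσ hσk (Z := Z + 1) (by linarith) fun x hx hx' => ?_).trans
    (add_le_add_right (mul_le_mul_of_nonneg_right h3 (Nat.cast_nonneg _)) _)
  obtain ⟨a, b⟩ := hU (⟨hx, by linarith⟩ : x ∈ Set.Ioc 1 u)
  exact ⟨by linarith, b⟩

end Pool.Agent.MP_1246c0_nt.H25
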