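import Pool.Agent.MP_1246c0_nt.H25.SpecR

/-! The bad events at the top levels are rare. -/

namespace Pool.Agent.MP_1246c0_nt.H25

open Finset Matrix
open Pool.Agent.MP_1246c0_nt.H12

namespace RMT

theorem ex_top {M : Type} [AddCommGroup M] [Finite M] (p : M → Prop) :
    Ex (⊤ : AddSubgroup M) (fun a => ind (p a)) = (Nat.card {a // p a} : ℝ) / Nat.card M := by
  classical
  have := Fintype.ofFinite M
  have h1 : (∑ᶠ h : (⊤ : AddSubgroup M), ind (p h)) = ∑ᶠ a : M, ind (p a) :=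
    finsum_comp (g := fun a => ind (p a)) _ (AddSubgroup.topEquiv (G := M)).bijective
  rw [Ex, h1, AddSubgroup.card_top, finsum_eq_sum_of_fintype, Nat.card_eq_fintype_card (α := {a // p a}),
    Fintype.card_subtype]
  congr 1
  simp only [ind]
  rw [Finset.sum_boole]

theorem ind_mono {p q : Prop} (h : p → q) : ind p ≤ ind q := by
  unfold ind
  by_cases hp : p
  · rw [if_pos hp, if_pos (h hp)]
  · rw [if_neg hp]
    split_ifs <;> norm_num

theorem ind_nonneg (p : Prop) : 0 ≤ ind p := by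
  unfold ind
  split_ifs <;> norm_num

theorem val_add {Λ : Type} [CommRing Λ] (h2 : (2 : Λ) = 0) (x y : F2) :
    (((x + y).val : ℕ) : Λ) = (x.val : Λ) + (y.val : Λ) := by
  have h : ∀ x y : F2, x.val + y.val = (x + y).val ∨ x.val + y.val = (x + y).val + 2 := by decide
  rw [← Nat.cast_add]
  rcases h x y with h | h <;> rw [h]
  rw [Nat.cast_add, Nat.cast_ofNat, h2, add_zero]

/-- The additive family of hermitian matrices. -/
def ps {Λ : Type} [CommRing Λ] (ι : Type) [DecidableEq ι] (st : Λ →+* Λ) (g : Λ) (h2 : (2 : Λ) = 0)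
    (N : ℕ) : (ι × ι → Fin N → F2) →+ Matrix ι ι Λ :=
  AddMonoidHom.mk' (fun a => HH st g fun i => ∑ k, ((a i k).val : Λ) * (g + st g) ^ k.val)
    fun a b => by
      ext l l'
      simp only [HH, Matrix.add_apply, Pi.add_apply, val_add h2, add_mul, sum_add_distrib]
      split_ifs <;> ring

theorem tr {Λ ι : Type} [CommRing Λ] [DecidableEq ι] (S : Matrix ι ι Λ) (c : ι → Λ) (b : Bool)
    (p p' q q' : ι → Prop) [i1 : Fintype {l // p l}] [i2 : Fintype {l // p' l}]
    [j1 : DecidablePred q] [j2 : DecidablePred q'] (hp : ∀ l, p l ↔ p' l) (hq : ∀ l, q l ↔ q' l)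
    (h : BadT (ι := {l // p l}) (S.submatrix Subtype.val Subtype.val) (fun l => c l.1)
      (univ.filter fun l => q l.1) b) :
    BadT (ι := {l // p' l}) (S.submatrix Subtype.val Subtype.val) (fun l => c l.1)
      (univ.filter fun l => q' l.1) b := by
  obtain rfl : p = p' := funext fun l => propext (hp l)
  obtain rfl : q = q' := funext fun l => propext (hq l)
  obtain rfl : i1 = i2 := Subsingleton.elim _ _
  obtain rfl : j1 = j2 := Subsingleton.elim _ _
  exact h

theorem tr' {Λ ι : Type} [CommRing Λ] [Fintype ι] [DecidableEq ι] (S : Matrix ι ι Λ) (c : ι → Λ)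
    (b : Bool) (lv : ι → ℕ) (a : ℕ) (Q P : Finset ι) (hQ : ∀ l, a ≤ lv l ↔ l ∈ Q)
    (hP : ∀ l, lv l = a ↔ l ∈ P) (h : BadU lv c S a b) :
    BadT (ι := {l // l ∈ Q}) (S.submatrix Subtype.val Subtype.val) (fun l => c l.1)
      (univ.filter fun l => l.1 ∈ P) b :=
  @tr Λ ι _ _ S c b (fun l => a ≤ lv l) (fun l => l ∈ Q) (fun l => lv l = a) (fun l => l ∈ P)
    (Subtype.fintype _) (Finset.Subtype.fintype Q) (fun l => instDecidableEqNat (lv l) a)
    (fun l => Finset.decidableMem l P) hQ hP h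

/-- One event, all indices big. -/
theorem one (hA : SAVG) (hS : SSZ) (hT : STPR) (K j : ℕ) (ε : ℝ) (hε : 0 < ε) :
    ∃ n0 : ℕ, ∀ (n : ℕ) (Λ ι : Type) [CommRing Λ] [Finite Λ] [Fintype ι] [DecidableEq ι]
      (st : Λ →+* Λ) (au : Λ →+* F2) (g : Λ) (B P : Finset ι) (S : Matrix ι ι Λ) (c : ι → Λ)
      (b : Bool), n0 ≤ n → LG st au g (2 ^ n) → Fintype.card ι ≤ K → (∀ l, l ∈ B) →
      (∀ l, ¬(g - 1) ^ j ∣ c l) → Ex (Hs st B B) (fun H => ind (BadT (S + H) c P b)) ≤ ε := by
  obtain ⟨D, c0, hT⟩ := hT K j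
  obtain ⟨n0, hS⟩ := hS (K * K) D c0 ε hε
  refine ⟨max n0 c0, fun n Λ ι _ _ _ _ st au g B P S c b hn hL hK hB hc => ?_⟩
  have h2 := hL.lr.two
  have inv : ∀ h, st (st h) = h := hL.lr.2
  have le : (⊤ : AddSubgroup _).map (ps ι st g h2 (2 ^ (n - 1))) ≤ Hs st B B := by
    rintro _ ⟨a, -, rfl⟩
    refine ⟨fun l l' => ?_, fun l => ⟨0, by simp [ps, HH]⟩,
      fun l l' h => (h ⟨hB l, hB l', Or.inl (hB l)⟩).elim⟩
    simp only [ps, AddMonoidHom.mk'_apply, HH]
    by_cases h : l = l'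
    · simp [h]
    · rw [if_neg h, if_neg (Ne.symm h)]
      simp only [map_add, map_mul, map_sum, map_natCast, map_pow, inv, add_comm (st g) g]
      ring
  rw [hA.sub _ _ _ _ le]
  refine (hA.mono _ _ _ (fun _ => ε) fun h _ => ?_).trans (hA.const _ _ _).le
  obtain ⟨f, f1, f2, f3⟩ := hT n Λ ι st au g (S + h) c P b hL
    ((le_max_right _ _).trans (hn.trans Nat.lt_two_pow_self.le)) hK hc
  have := hS n Λ (ι × ι) st au g f ((le_max_left _ _).trans hn) hL
    (by rw [Fintype.card_prod]; exact Nat.mul_le_mul hK hK) f1 f2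
  rw [← hA.map]
  refine (hA.mono _ _ _ (fun a => ind (MvPolynomial.eval
    (fun i => ∑ k, ((a i k).val : Λ) * (g + st g) ^ k.val) f = 0)) fun a _ =>
    ind_mono fun hb => ?_).trans ?_
  · rw [← add_assoc] at hb
    exact f3 (fun i => ∑ k, ((a i k).val : Λ) * (g + st g) ^ k.val) hb
  rw [ex_top, div_le_iff₀ (by exact_mod_cast Nat.card_pos)]
  exact this

end RMT

open RMT in
theorem rowRMT : OfRMT := by
  intro hA hS hT K j ε hε
  obtain ⟨n0, h⟩ := one hA hS hT K j (ε / (2 ^ K * 2 ^ K * 2)) (by positivity)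
  refine ⟨n0, fun n Λ ι _ _ _ _ st au g lv B S c a0 hn hL hK hc => ?_⟩
  set T := univ.filter fun l => a0 ≤ lv l with hT
  have hmem : ∀ l, l ∈ T ↔ a0 ≤ lv l := fun l => by simp [hT]
  let E : (Finset ι × Finset ι) × Bool → Matrix ι ι Λ → Prop := fun q H =>
    BadT (ι := {l // l ∈ q.1.1}) ((S + H).submatrix Subtype.val Subtype.val) (fun l => c l.1)
      (univ.filter fun l => l.1 ∈ q.1.2) q.2
  have hE : ∀ q ∈ (T.powerset ×ˢ T.powerset) ×ˢ (univ : Finset Bool),
      Ex (Hs st B B) (fun H => ind (E q H)) ≤ ε / (2 ^ K * 2 ^ K * 2) := fun q hq => by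
    have hq1 : q.1.1 ⊆ T := mem_powerset.1 (mem_product.1 (mem_product.1 hq).1).1
    have e := hA.res Λ ι {l // l ∈ q.1.1} st B B Subtype.val (fun H => ind (BadT
      (S.submatrix Subtype.val Subtype.val + H) (fun l => c l.1)
      (univ.filter fun l => l.1 ∈ q.1.2) q.2)) Subtype.val_injective
    simp only [E, Matrix.submatrix_add, Pi.add_apply]
    rw [e]
    exact h n Λ _ st au g _ _ _ _ _ hn hL
      (by rw [Fintype.card_coe]; exact (card_le_card hq1).trans hK)
      (fun l => mem_filter.2 ⟨mem_univ _, (hc l.1 ((hmem _).1 (hq1 l.2))).1⟩)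
      fun l => (hc l.1 ((hmem _).1 (hq1 l.2))).2
  refine (hA.mono _ _ _ (fun H => ∑ q ∈ (T.powerset ×ˢ T.powerset) ×ˢ (univ : Finset Bool),
    ind (E q H)) fun H _ => ?_).trans ?_
  · by_cases hb : ∃ a, a0 ≤ a ∧ ∃ b, BadU lv c (S + H) a b
    · obtain ⟨a, ha, b, hb⟩ := hb
      have hq : E ((univ.filter fun l => a ≤ lv l, univ.filter fun l => lv l = a), b) H :=
        tr' (S + H) c b lv a _ _ (fun l => by simp) (fun l => by simp) hb
      refine le_trans (ind_mono fun _ => hq) (single_le_sum (f := fun q => ind (E q H))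
        (fun q _ => ind_nonneg _)
        (a := ((univ.filter fun l => a ≤ lv l, univ.filter fun l => lv l = a), b)) ?_)
      · simp only [mem_product, mem_powerset, mem_univ, and_true]
        exact ⟨fun l hl => (hmem l).2 (ha.trans (mem_filter.1 hl).2),
          fun l hl => (hmem l).2 (ha.trans (mem_filter.1 hl).2.ge)⟩
    · rw [ind, if_neg hb]
      exact sum_nonneg fun q _ => ind_nonneg _
  · rw [hA.sum]
    refine (sum_le_card_nsmul _ _ _ hE).trans ?_
    rw [card_product, card_product, card_powerset, card_univ, Fintype.card_bool, nsmul_eq_mul,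
      mul_div_assoc', div_le_iff₀ (by positivity), mul_comm]
    have : (2 : ℝ) ^ T.card ≤ 2 ^ K := pow_le_pow_right₀ (by norm_num) hK
    push_cast
    gcongr

end Pool.Agent.MP_1246c0_nt.H25
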